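import Pool.Agent.X245.MJ.Poly

/-!
# MAJ-CMP is in P

`MajCMP (l, k)` (in `Pool.Agent.X245.MJ.Defs`) says that `l` is a non-empty list of positive
integers, that `k` is positive, and that the complete multipartite graph with the part sizes in
`l` has a majority dominating function of weight at most `k`. The integers are written in binary.

The algorithm: for `k ≥ 2`, or for an odd number of vertices, the answer is yes. Otherwise a
function of weight at most `0` is needed. It may be assumed to have weight `0`, and then each part
either has values summing to `-2` or `-3` (all its vertices are satisfied), or to `0` or `-1`
(half of them are satisfied), or to a positive number. So a dynamic programme which maximises the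
number of satisfied vertices for each value, in a range of size `3 m`, of the sum of the function
decides the question, although the part sizes may be exponential.
-/

namespace Pool.Agent.Results.MP_1ffe94_lc.MajCMPInP

open Pool.Agent.NPC Pool.Agent.X245.MJ

/-- `MAJ-CMP`, with the part sizes written in binary, is solvable in polynomial time; so it is not
`NP`-hard unless `P = NP`. -/
theorem result : InPP MajCMP ∧ (NPHardP MajCMP → ∀ L, InNP L → InP L) :=
  ⟨inPP_MajCMP, fun h => NPHard.collapse h inPP_MajCMP⟩

end Pool.Agent.Results.MP_1ffe94_lc.MajCMPInP
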